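import Pool.Agent.helper21.UB.Spec

set_option autoImplicit false

open Quaternion

namespace Pool.Agent.helper21.UB

theorem DR_rpow (m : ℕ) : (((27 * m ^ 3 : ℕ)) : ℝ) ^ ((4 : ℝ) / 3) = 81 * (m : ℝ) ^ 4 := by
  have h0 : (0 : ℝ) ≤ 3 * (m : ℝ) := by positivity
  have h1 : (((27 * m ^ 3 : ℕ)) : ℝ) = (3 * (m : ℝ)) ^ ((3 : ℕ) : ℝ) := by
    rw [Real.rpow_natCast]; push_cast; ring
  rw [h1, ← Real.rpow_mul h0]
  have h2 : ((3 : ℕ) : ℝ) * ((4 : ℝ) / 3) = ((4 : ℕ) : ℝ) := by push_cast; ring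
  rw [h2, Real.rpow_natCast]
  ring

theorem DR_log3 : 1 < Real.log 3 := by
  rw [Real.lt_log_iff_exp_lt (by norm_num)]
  have := Real.exp_one_lt_d9
  linarith

/-- The dense form of Q1 bounds the number of representations as a sum of three squares. -/
theorem DR (hFIN : FIN_stmt) (hPAI : PAI_stmt) : DR_stmt := by
  intro hD
  obtain ⟨C₀, N, hN⟩ := hD 1
  set lam : ℝ := Real.log (Real.log 3) with hlam
  have hlam0 : 0 < lam := Real.log_pos DR_log3
  set C : ℝ := max C₀ 1 with hC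
  have hC1 : 1 ≤ C := le_max_right _ _
  have hC0 : C₀ ≤ C := le_max_left _ _
  set C' : ℝ := 1 + Real.log 7 / lam with hC'
  have hlog7 : 0 < Real.log 7 := Real.log_pos (by norm_num)
  have hC'1 : 1 ≤ C' := by
    rw [hC']
    have : 0 ≤ Real.log 7 / lam := by positivity
    linarith
  set B : ℝ := (2 * (N : ℝ) ^ 2 + 1) ^ 3 with hB
  have hB0 : 0 ≤ B := by positivity
  refine ⟨162 * C * C' + B / lam, ?_⟩
  intro k hk
  have hkR : (3 : ℝ) ≤ (k : ℝ) := by exact_mod_cast hk
  have hlk : Real.log 3 ≤ Real.log k := Real.log_le_log (by norm_num) hkR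
  have hlk1 : 1 < Real.log k := lt_of_lt_of_le DR_log3 hlk
  have hllk : lam ≤ Real.log (Real.log k) :=
    Real.log_le_log (by linarith [DR_log3]) hlk
  have hllk0 : 0 < Real.log (Real.log k) := lt_of_lt_of_le hlam0 hllk
  have hsq1 : 1 ≤ Real.sqrt k := by
    rw [Real.one_le_sqrt]; linarith
  have hT1 : 0 ≤ 162 * C * C' * Real.sqrt k * Real.log (Real.log k) := by positivity
  have hT2 : 0 ≤ B / lam * Real.sqrt k * Real.log (Real.log k) := by positivity
  obtain ⟨m, hm⟩ : ∃ m, m = Nat.sqrt k + 1 := ⟨_, rfl⟩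
  have hm1 : 1 ≤ m := by omega
  have hkm : k ≤ m ^ 2 := by
    rw [hm, pow_two]
    exact (Nat.lt_succ_sqrt k).le
  have hm2 : (m : ℝ) ≤ 2 * Real.sqrt k := by
    have h1 : ((Nat.sqrt k : ℕ) : ℝ) ≤ Real.sqrt k := by
      refine Real.le_sqrt_of_sq_le ?_
      have := Nat.sqrt_le' k
      exact_mod_cast this
    rw [hm]; push_cast
    linarith
  have hm0 : (0 : ℝ) < (m : ℝ) := by exact_mod_cast hm1
  have hsk : Real.sqrt k ≤ k := by
    have h1 : Real.sqrt k * Real.sqrt k = k := Real.mul_self_sqrt (by linarith)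
    nlinarith
  have hsk0 : 0 ≤ Real.sqrt k := Real.sqrt_nonneg _
  by_cases hcase : N ≤ 27 * m ^ 3
  · obtain ⟨S, hS1, hS2, hS3⟩ := hPAI m k hm1 hkm
    have h1 := hN S (fun _ => 0) (3 * m) k (fun x hx i => by
      have := hS2 x hx i
      push_cast
      constructor
      · exact this.1
      · linarith [this.2]) (by
        rw [hS1]; push_cast; ring_nf; exact le_rfl) (by rw [hS1]; exact hcase)
    rw [hS1, DR_rpow] at h1
    have h2 : ((m ^ 3 * r3 k : ℕ) : ℝ) ≤
        (((S ×ˢ S).filter (fun p => ∑ i, (p.1 i - p.2 i) ^ 2 = (k : ℤ))).card : ℝ) := by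
      exact_mod_cast hS3
    have h3 : (m : ℝ) ^ 3 * (r3 k : ℝ) ≤
        C₀ * (81 * (m : ℝ) ^ 4) * Real.log (Real.log ((27 * m ^ 3 : ℕ) : ℝ)) := by
      have := h2.trans h1
      push_cast at this ⊢
      exact this
    have h27 : (27 : ℝ) ≤ ((27 * m ^ 3 : ℕ) : ℝ) := by
      have : 27 ≤ 27 * m ^ 3 := Nat.le_mul_of_pos_right _ (Nat.pow_pos (by omega))
      exact_mod_cast this
    have hlog27 : 1 < Real.log ((27 * m ^ 3 : ℕ) : ℝ) :=
      lt_of_lt_of_le DR_log3 (Real.log_le_log (by norm_num) (by linarith))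
    have hll27 : 0 < Real.log (Real.log ((27 * m ^ 3 : ℕ) : ℝ)) := Real.log_pos hlog27
    have hup : ((27 * m ^ 3 : ℕ) : ℝ) ≤ (k : ℝ) ^ 7 := by
      have h4 : (m : ℝ) ^ 2 ≤ 4 * k := by
        have h5 : Real.sqrt k * Real.sqrt k = k := Real.mul_self_sqrt (by linarith)
        nlinarith
      have h5 : (m : ℝ) ≤ 2 * k := by linarith
      have h6 : (m : ℝ) ^ 3 ≤ 8 * (k : ℝ) ^ 2 := by
        calc (m : ℝ) ^ 3 = (m : ℝ) ^ 2 * m := by ring
          _ ≤ 4 * (k : ℝ) * (2 * (k : ℝ)) := mul_le_mul h4 h5 hm0.le (by positivity)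
          _ = 8 * (k : ℝ) ^ 2 := by ring
      have h7 : (243 : ℝ) ≤ (k : ℝ) ^ 5 := by
        calc (243 : ℝ) = 3 ^ 5 := by norm_num
          _ ≤ (k : ℝ) ^ 5 := pow_le_pow_left₀ (by norm_num) hkR 5
      have h8 : (0 : ℝ) ≤ (k : ℝ) ^ 2 := by positivity
      push_cast
      calc 27 * (m : ℝ) ^ 3 ≤ 27 * (8 * (k : ℝ) ^ 2) := by linarith
        _ ≤ (k : ℝ) ^ 5 * (k : ℝ) ^ 2 := by nlinarith
        _ = (k : ℝ) ^ 7 := by ring
    have hlogle : Real.log (Real.log ((27 * m ^ 3 : ℕ) : ℝ)) ≤ C' * Real.log (Real.log k) := by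
      have h4 : Real.log ((27 * m ^ 3 : ℕ) : ℝ) ≤ 7 * Real.log k := by
        have := Real.log_le_log (by linarith) hup
        rw [Real.log_pow] at this
        exact_mod_cast this
      have h5 : Real.log (Real.log ((27 * m ^ 3 : ℕ) : ℝ)) ≤ Real.log (7 * Real.log k) :=
        Real.log_le_log (by linarith) h4
      rw [Real.log_mul (by norm_num) (by linarith)] at h5
      have h6 : Real.log 7 ≤ Real.log 7 / lam * Real.log (Real.log k) := by
        calc Real.log 7 = Real.log 7 / lam * lam := by field_simp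
          _ ≤ _ := mul_le_mul_of_nonneg_left hllk (by positivity)
      rw [hC', add_mul, one_mul]
      linarith
    have h4 : (r3 k : ℝ) ≤ C₀ * 81 * m * Real.log (Real.log ((27 * m ^ 3 : ℕ) : ℝ)) := by
      have h5 : (0 : ℝ) < (m : ℝ) ^ 3 := by positivity
      have h6 : (m : ℝ) ^ 3 * (r3 k : ℝ) ≤
          (m : ℝ) ^ 3 * (C₀ * 81 * m * Real.log (Real.log ((27 * m ^ 3 : ℕ) : ℝ))) := by
        calc _ ≤ _ := h3
          _ = _ := by ring
      exact le_of_mul_le_mul_left h6 h5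
    have h5 : C₀ * 81 * m * Real.log (Real.log ((27 * m ^ 3 : ℕ) : ℝ)) ≤
        C * 81 * (2 * Real.sqrt k) * (C' * Real.log (Real.log k)) := by
      have h6 : C₀ * 81 * m ≤ C * 81 * (2 * Real.sqrt k) := by
        calc C₀ * 81 * m ≤ C * 81 * m := by
              have : C₀ * 81 ≤ C * 81 := by linarith
              exact mul_le_mul_of_nonneg_right this hm0.le
          _ ≤ C * 81 * (2 * Real.sqrt k) := mul_le_mul_of_nonneg_left hm2 (by positivity)
      exact mul_le_mul h6 hlogle hll27.le (by positivity)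
    have h7 : C * 81 * (2 * Real.sqrt k) * (C' * Real.log (Real.log k)) =
        162 * C * C' * Real.sqrt k * Real.log (Real.log k) := by ring
    rw [add_mul, add_mul]
    linarith
  · have hmN : m ≤ N := by
      push Not at hcase
      have h1 : m ≤ m ^ 3 := Nat.le_self_pow (by norm_num) m
      omega
    have hkN : (k : ℝ) ≤ (N : ℝ) ^ 2 := by
      have h1 : k ≤ N ^ 2 := hkm.trans (Nat.pow_le_pow_left hmN 2)
      exact_mod_cast h1
    have h1 : (r3 k : ℝ) ≤ (2 * (k : ℝ) + 1) ^ 3 := by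
      have := hFIN.2 k
      exact_mod_cast this
    have h2 : (2 * (k : ℝ) + 1) ^ 3 ≤ B := by
      rw [hB]
      refine pow_le_pow_left₀ (by positivity) (by linarith) 3
    have h3 : B ≤ B / lam * Real.sqrt k * Real.log (Real.log k) := by
      calc B = B / lam * 1 * lam := by field_simp
        _ ≤ B / lam * Real.sqrt k * Real.log (Real.log k) := by
            refine mul_le_mul ?_ hllk hlam0.le (by positivity)
            exact mul_le_mul_of_nonneg_left hsq1 (by positivity)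
    rw [add_mul, add_mul]
    linarith

end Pool.Agent.helper21.UB
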